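import Pool.Agent.Helper64.PNT.Primes
import Pool.Agent.Helper29.QT.Bessel

/-!
# The prime number theorem for quadratic characters
-/

set_option autoImplicit false

namespace Pool.Agent.Helper65.DIL

open Finset Filter Topology Pool.Agent.Helper29.QT
open scoped NumberTheorySymbols

lemma ch_odd_of_ne {m : ℤ} {n : ℕ} (h : ch m n ≠ 0) : Odd n := by
  by_contra hn
  exact h (if_neg hn)

lemma gcd_of_ch_ne {m : ℤ} {n : ℕ} (h : ch m n ≠ 0) : m.gcd n = 1 := by
  have hodd := ch_odd_of_ne h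
  by_contra hne
  apply h
  rw [ch_odd m hodd, (jacobiSym.eq_zero_iff (a := m) (b := n)).2 ⟨hodd.pos.ne', hne⟩]
  norm_num

lemma coprime_of_ch_ne {m : ℤ} {n : ℕ} (h : ch m n ≠ 0) : Nat.Coprime n (4 * m.natAbs) := by
  have hodd := ch_odd_of_ne h
  have h1 := gcd_of_ch_ne h
  apply Nat.Coprime.mul_right
  · have h2 : Nat.Coprime n 2 := hodd.coprime_two_right
    have h3 : (4 : ℕ) = 2 ^ 2 := by norm_num
    rw [h3]
    exact h2.pow_right 2
  · rw [Int.gcd_eq_natAbs, Int.natAbs_natCast] at h1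
    exact Nat.Coprime.symm h1

lemma ch_sq_of_coprime {m : ℤ} {n : ℕ} (hn : Odd n) (h : m.gcd n = 1) : ch m n ^ 2 = 1 := by
  rw [ch_odd m hn]
  have := jacobiSym.sq_one h
  exact_mod_cast this

/-- An integer which is not a square takes the value `-1`. -/
theorem exists_neg' {m : ℤ} (hm0 : m ≠ 0) (hm : ¬ IsSquare m) : ∃ n, ch m n = -1 := by
  classical
  obtain ⟨a, b, ha0, hb0, hab, hsq⟩ := Nat.sq_mul_squarefree_of_pos (Int.natAbs_pos.2 hm0)
  obtain ⟨s, hs⟩ : ∃ s : ℤ, s = m.sign * a := ⟨_, rfl⟩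
  have hms : m = s * (b : ℤ) * b := by
    have h1 : m = m.sign * (m.natAbs : ℤ) := (Int.sign_mul_natAbs m).symm
    rw [hs]
    conv_lhs => rw [h1, ← hab]
    push_cast
    ring
  have hsn : s.natAbs = a := by
    rw [hs, Int.natAbs_mul, Int.natAbs_sign_of_ne_zero hm0, one_mul, Int.natAbs_natCast]
  have hsf : Squarefree s := by
    rw [← Int.squarefree_natAbs, hsn]
    exact hsq
  have hs1 : s ≠ 1 := by
    intro h
    apply hm
    rw [hms, h, one_mul]
    exact ⟨b, rfl⟩
  obtain ⟨n, hn⟩ := exists_neg hsf squarefree_one hs1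
  rw [mul_one] at hn
  have hn0 : ch s n ≠ 0 := by rw [hn]; norm_num
  have hcop := coprime_of_ch_ne hn0
  have hs0 : s ≠ 0 := hsf.ne_zero
  have hq0 : 0 < 4 * s.natAbs := Nat.mul_pos (by norm_num) (Int.natAbs_pos.2 hs0)
  have : NeZero (4 * s.natAbs) := ⟨hq0.ne'⟩
  have hu : IsUnit ((n : ℕ) : ZMod (4 * s.natAbs)) := (ZMod.unitOfCoprime n hcop).isUnit
  obtain ⟨p, hpb, hp, hpn⟩ := Nat.forall_exists_prime_gt_and_eq_mod hu (2 * b + 2)
  refine ⟨p, ?_⟩
  have hmod : p % (4 * s.natAbs) = n % (4 * s.natAbs) :=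
    (ZMod.natCast_eq_natCast_iff' p n _).1 hpn
  have h1 : ch s p = -1 := by
    rw [← ch_mod hs0 p, hmod, ch_mod hs0, hn]
  have hodd : Odd p := hp.odd_of_ne_two (by omega)
  have hg : (b : ℤ).gcd p = 1 := by
    rw [Int.gcd_natCast_natCast]
    apply Nat.Coprime.symm
    rw [Nat.Prime.coprime_iff_not_dvd hp]
    intro h
    have := Nat.le_of_dvd hb0 h
    omega
  have h2 := ch_sq_of_coprime (m := (b : ℤ)) hodd hg
  rw [hms, ch_mul_left, ch_mul_left, h1]
  have h3 : -1 * ch (b : ℤ) p * ch (b : ℤ) p = -(ch (b : ℤ) p ^ 2) := by ring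
  rw [h3, h2]

/-- The prime number theorem for the quadratic character of an integer which is not a square. -/
theorem tendsto_ch {m : ℤ} (hm0 : m ≠ 0) (hm : ¬ IsSquare m) :
    Tendsto (fun T : ℕ => (∑ p ∈ PR T, ch m p * Real.log p) / T) atTop (𝓝 0) := by
  classical
  obtain ⟨n₀, hn₀⟩ := exists_neg' hm0 hm
  obtain ⟨q, hq⟩ : ∃ q, q = 4 * m.natAbs := ⟨_, rfl⟩
  have hq0 : 0 < q := by rw [hq]; exact Nat.mul_pos (by norm_num) (Int.natAbs_pos.2 hm0)
  have hne : NeZero q := ⟨hq0.ne'⟩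
  have hper := sum_period hm0 hn₀
  rw [← hq] at hper
  have hsum : ∑ n ∈ range q, ch m n = ∑ x : ZMod q, ch m x.val := by
    symm
    apply Finset.sum_bij (fun (x : ZMod q) _ => x.val)
    · intro x _; rw [Finset.mem_range]; exact ZMod.val_lt x
    · intro x _ y _ h; exact ZMod.val_injective q h
    · intro n hn
      exact ⟨(n : ZMod q), Finset.mem_univ _, ZMod.val_cast_of_lt (Finset.mem_range.1 hn)⟩
    · intro x _; rfl
  have key : ∀ T : ℕ, ∑ p ∈ PR T, ch m p * Real.log p =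
      ∑ x : ZMod q, ch m x.val * Pool.Agent.Helper64.PNT.thetaAP x (T : ℝ) := by
    intro T
    rw [← Finset.sum_fiberwise_of_maps_to (s := PR T) (t := Finset.univ)
      (g := fun p : ℕ => (p : ZMod q)) (fun _ _ => Finset.mem_univ _)]
    refine Finset.sum_congr rfl fun x _ => ?_
    unfold Pool.Agent.Helper64.PNT.thetaAP
    rw [Nat.floor_natCast, Finset.mul_sum]
    unfold PR
    rw [Finset.filter_filter]
    refine Finset.sum_congr rfl fun p hp => ?_
    have h1 := (Finset.mem_filter.1 hp).2.2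
    have h2 : ch m x.val = ch m p := by
      rw [← h1, ZMod.val_natCast, hq, ch_mod hm0]
    rw [h2]
  have h1 : Tendsto (fun T : ℕ => ∑ x : ZMod q,
      ch m x.val * (Pool.Agent.Helper64.PNT.thetaAP x (T : ℝ) / T)) atTop
      (𝓝 (∑ x : ZMod q, ch m x.val * (q.totient : ℝ)⁻¹)) := by
    apply tendsto_finsetSum
    intro x _
    by_cases hx : ch m x.val = 0
    · simp only [hx, zero_mul]
      exact tendsto_const_nhds
    · have h2 := coprime_of_ch_ne hx
      rw [← hq] at h2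
      have h3 : IsUnit x := by
        have := (ZMod.unitOfCoprime _ h2).isUnit
        rwa [ZMod.coe_unitOfCoprime, ZMod.natCast_zmod_val] at this
      exact ((Pool.Agent.Helper64.PNT.thetaAP_tendsto h3).comp
        tendsto_natCast_atTop_atTop).const_mul _
  have h2 : ∑ x : ZMod q, ch m x.val * (q.totient : ℝ)⁻¹ = 0 := by
    rw [← Finset.sum_mul, ← hsum, hper, zero_mul]
  rw [h2] at h1
  refine h1.congr fun T => ?_
  rw [key, Finset.sum_div]
  exact Finset.sum_congr rfl fun x _ => by ring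

/-- The prime number theorem. -/
theorem tendsto_one : Tendsto (fun T : ℕ => (∑ p ∈ PR T, Real.log p) / T) atTop (𝓝 1) := by
  have ha : IsUnit (0 : ZMod 1) := by
    have : (0 : ZMod 1) = 1 := Subsingleton.elim _ _
    rw [this]
    exact isUnit_one
  have h1 := (Pool.Agent.Helper64.PNT.thetaAP_tendsto ha).comp tendsto_natCast_atTop_atTop
  rw [Nat.totient_one, Nat.cast_one, inv_one] at h1
  refine h1.congr fun T => ?_
  change Pool.Agent.Helper64.PNT.thetaAP (0 : ZMod 1) (T : ℝ) / (T : ℝ) = _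
  congr 1
  unfold Pool.Agent.Helper64.PNT.thetaAP PR
  rw [Nat.floor_natCast]
  apply Finset.sum_congr _ fun _ _ => rfl
  apply Finset.filter_congr
  intro p _
  constructor
  · exact fun h => h.1
  · exact fun h => ⟨h, Subsingleton.elim _ _⟩

end Pool.Agent.Helper65.DIL
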