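import Pool.Agent.Helper65.DIL.Chars
import Pool.Agent.Helper76.DIL.Defs

/-!
# The density of the primes at which all the integers of a family are squares
-/

set_option autoImplicit false

namespace Pool.Agent.Helper65.DIL

open Finset Filter Topology Pool.Agent.Helper29.QT Pool.Agent.Helper76.DIL
open scoped NumberTheorySymbols

/-- The sum of `ch m p * log p` over the odd primes. -/
noncomputable def So (m : ℤ) (T : ℕ) : ℝ :=
  ∑ p ∈ (PR T).filter (· ≠ 2), ch m p * Real.log p

lemma So_eq (m : ℤ) (T : ℕ) : So m T = ∑ p ∈ PR T, ch m p * Real.log p := by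
  unfold So
  rw [Finset.sum_filter]
  refine Finset.sum_congr rfl fun p _ => ?_
  split_ifs with h
  · rfl
  · push Not at h
    subst h
    unfold ch
    rw [if_neg (by decide), zero_mul]

lemma ch_prod {ι : Type} (S : Finset ι) (a : ι → ℤ) {n : ℕ} (hn : Odd n) :
    ch (∏ i ∈ S, a i) n = ∏ i ∈ S, ch (a i) n := by
  classical
  induction S using Finset.induction_on with
  | empty =>
    rw [Finset.prod_empty, Finset.prod_empty, ch_odd _ hn]
    simp
  | insert i S hi ih =>
    rw [Finset.prod_insert hi, Finset.prod_insert hi, ch_mul_left, ih]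

/-- The majorant. -/
noncomputable def ff {m : ℕ} (a c : Fin m → ℤ) (n : ℕ) : ℝ :=
  (∏ i, (1 + ch (a i) n)) * ∏ i, (1 + ch (c i) n)

lemma ff_nonneg {m : ℕ} (a c : Fin m → ℤ) (n : ℕ) : 0 ≤ ff a c n := by
  unfold ff
  apply mul_nonneg
  · apply Finset.prod_nonneg
    intro i _
    have := (abs_le.1 (abs_ch_le (a i) n)).1
    linarith
  · apply Finset.prod_nonneg
    intro i _
    have := (abs_le.1 (abs_ch_le (c i) n)).1
    linarith

lemma ff_eq {m : ℕ} (a c : Fin m → ℤ) {n : ℕ} (hn : Odd n) :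
    ff a c n = ∑ S : Finset (Fin m), ∑ U : Finset (Fin m),
      ch ((∏ i ∈ S, a i) * ∏ i ∈ U, c i) n := by
  unfold ff
  rw [Finset.prod_one_add, Finset.prod_one_add, Finset.sum_mul_sum, Finset.powerset_univ]
  refine Finset.sum_congr rfl fun S _ => Finset.sum_congr rfl fun U _ => ?_
  rw [ch_mul_left, ch_prod S a hn, ch_prod U c hn]

lemma sum_ff {m : ℕ} (a c : Fin m → ℤ) (T : ℕ) :
    ∑ p ∈ (PR T).filter (· ≠ 2), ff a c p * Real.log p =
      ∑ S : Finset (Fin m), ∑ U : Finset (Fin m), So ((∏ i ∈ S, a i) * ∏ i ∈ U, c i) T := by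
  unfold So
  have h1 : ∀ p ∈ (PR T).filter (· ≠ 2), ff a c p * Real.log p =
      ∑ S : Finset (Fin m), ∑ U : Finset (Fin m),
        ch ((∏ i ∈ S, a i) * ∏ i ∈ U, c i) p * Real.log p := by
    intro p hp
    rw [Finset.mem_filter] at hp
    have hpp : p.Prime := (Finset.mem_filter.1 hp.1).2
    rw [ff_eq a c (hpp.odd_of_ne_two hp.2), Finset.sum_mul]
    exact Finset.sum_congr rfl fun S _ => by rw [Finset.sum_mul]
  rw [Finset.sum_congr rfl h1, Finset.sum_comm]
  exact Finset.sum_congr rfl fun S _ => by rw [Finset.sum_comm]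

lemma tendsto_So {m : ℕ} {a c : Fin m → ℤ} (h : Indep a c) (S U : Finset (Fin m)) :
    Tendsto (fun T : ℕ => So ((∏ i ∈ S, a i) * ∏ i ∈ U, c i) T / T) atTop
      (𝓝 (if S = ∅ ∧ U = ∅ then 1 else 0)) := by
  simp_rw [So_eq]
  split_ifs with hSU
  · obtain ⟨rfl, rfl⟩ := hSU
    simp only [Finset.prod_empty, mul_one]
    have h1 := tendsto_one
    have h2 : Tendsto (fun T : ℕ => (Real.log 2 : ℝ) / T) atTop (𝓝 0) :=
      tendsto_const_div_atTop_nhds_zero_nat _
    have h3 := h1.sub h2
    rw [sub_zero] at h3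
    refine h3.congr' ?_
    filter_upwards [eventually_ge_atTop 2] with T hT
    rw [← sub_div]
    congr 1
    have h4 : ∀ p ∈ PR T, ch 1 p * Real.log p = Real.log p - if p = 2 then Real.log 2 else 0 := by
      intro p hp
      have hpp : p.Prime := (Finset.mem_filter.1 hp).2
      split_ifs with h5
      · subst h5
        unfold ch
        rw [if_neg (by decide)]
        push_cast
        ring
      · rw [ch_odd _ (hpp.odd_of_ne_two h5)]
        simp
    rw [Finset.sum_congr rfl h4, Finset.sum_sub_distrib, Finset.sum_ite_eq', if_pos]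
    unfold PR
    rw [Finset.mem_filter, Finset.mem_Icc]
    exact ⟨⟨by norm_num, hT⟩, Nat.prime_two⟩
  · have hns : ¬ IsSquare ((∏ i ∈ S, a i) * ∏ i ∈ U, c i) := fun hs => hSU (h S U hs)
    exact tendsto_ch (fun h0 => hns (h0 ▸ IsSquare.zero)) hns

/-- **The density.** -/
theorem density {m : ℕ} (a c : Fin m → ℤ) (h : Indep a c) (ε : ℝ) (hε : 0 < ε) :
    ∃ T₀ : ℕ, ∀ T : ℕ, T₀ ≤ T →
      ∑ p ∈ (Finset.Icc 1 T).filter (fun p : ℕ => p.Prime ∧ p ≠ 2 ∧
        ∀ i, jacobiSym (a i) p = 1 ∧ jacobiSym (c i) p = 1), Real.log p ≤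
      (1 / 4 ^ m + ε) * T := by
  classical
  have h1 : Tendsto (fun T : ℕ => (∑ p ∈ (PR T).filter (· ≠ 2), ff a c p * Real.log p) / T)
      atTop (𝓝 1) := by
    have h2 : Tendsto (fun T : ℕ => ∑ S : Finset (Fin m), ∑ U : Finset (Fin m),
        So ((∏ i ∈ S, a i) * ∏ i ∈ U, c i) T / T) atTop
        (𝓝 (∑ S : Finset (Fin m), ∑ U : Finset (Fin m), if S = ∅ ∧ U = ∅ then (1 : ℝ) else 0)) := by
      apply tendsto_finsetSum
      intro S _
      apply tendsto_finsetSum
      intro U _
      exact tendsto_So h S U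
    have h3 : (∑ S : Finset (Fin m), ∑ U : Finset (Fin m),
        if S = ∅ ∧ U = ∅ then (1 : ℝ) else 0) = 1 := by
      rw [Finset.sum_eq_single ∅, Finset.sum_eq_single ∅]
      · simp
      · intro U _ hU
        rw [if_neg (fun hh => hU hh.2)]
      · intro hh
        exact absurd (Finset.mem_univ _) hh
      · intro S _ hS
        apply Finset.sum_eq_zero
        intro U _
        rw [if_neg (fun hh => hS hh.1)]
      · intro hh
        exact absurd (Finset.mem_univ _) hh
    rw [h3] at h2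
    refine h2.congr fun T => ?_
    rw [sum_ff, Finset.sum_div]
    exact Finset.sum_congr rfl fun S _ => by rw [Finset.sum_div]
  have h4m : (0 : ℝ) < 4 ^ m := by positivity
  have h5 := h1.eventually (gt_mem_nhds (show (1 : ℝ) < 1 + 4 ^ m * ε by
    have := mul_pos h4m hε
    linarith))
  obtain ⟨T₀, hT₀⟩ := Filter.eventually_atTop.1 h5
  refine ⟨max T₀ 1, fun T hT => ?_⟩
  have h6 := hT₀ T ((le_max_left _ _).trans hT)
  have hT0 : (0 : ℝ) < T := by
    have : 1 ≤ T := (le_max_right _ _).trans hT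
    exact_mod_cast this
  rw [div_lt_iff₀ hT0] at h6
  have h7 : (4 : ℝ) ^ m * ∑ p ∈ (Finset.Icc 1 T).filter (fun p : ℕ => p.Prime ∧ p ≠ 2 ∧
        ∀ i, jacobiSym (a i) p = 1 ∧ jacobiSym (c i) p = 1), Real.log p ≤
      ∑ p ∈ (PR T).filter (· ≠ 2), ff a c p * Real.log p := by
    rw [Finset.mul_sum]
    have h8 : ∀ p ∈ (Finset.Icc 1 T).filter (fun p : ℕ => p.Prime ∧ p ≠ 2 ∧
        ∀ i, jacobiSym (a i) p = 1 ∧ jacobiSym (c i) p = 1),
        (4 : ℝ) ^ m * Real.log p = ff a c p * Real.log p := by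
      intro p hp
      rw [Finset.mem_filter] at hp
      obtain ⟨_, hpp, hp2, hp3⟩ := hp
      have hodd := hpp.odd_of_ne_two hp2
      congr 1
      unfold ff
      have e1 : ∀ i ∈ Finset.univ, 1 + ch (a i) p = 2 := by
        intro i _
        rw [ch_odd _ hodd, (hp3 i).1]
        norm_num
      have e2 : ∀ i ∈ Finset.univ, 1 + ch (c i) p = 2 := by
        intro i _
        rw [ch_odd _ hodd, (hp3 i).2]
        norm_num
      rw [Finset.prod_congr rfl e1, Finset.prod_congr rfl e2, Finset.prod_const,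
        Finset.card_univ, Fintype.card_fin, ← mul_pow]
      norm_num
    rw [Finset.sum_congr rfl h8]
    apply Finset.sum_le_sum_of_subset_of_nonneg
    · intro p hp
      unfold PR
      rw [Finset.mem_filter] at hp
      rw [Finset.mem_filter, Finset.mem_filter]
      exact ⟨⟨hp.1, hp.2.1⟩, hp.2.2.1⟩
    · intro p _ _
      exact mul_nonneg (ff_nonneg a c p) (log_nonneg' p)
  have h9 := h7.trans h6.le
  rw [← le_div_iff₀' h4m] at h9
  refine h9.trans (le_of_eq ?_)
  field_simp

end Pool.Agent.Helper65.DIL
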