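import Pool.Agent.Helper76.DIL.Defs

/-!
# The existence of integers which are independent modulo squares
-/

set_option autoImplicit false

namespace Pool.Agent.Helper65.DIL

open Finset Pool.Agent.Helper76.DIL

lemma prod_last {m : ℕ} (S : Finset (Fin (m + 1))) (a : Fin (m + 1) → ℤ) :
    ∏ i ∈ S, a i = (∏ i ∈ Finset.univ.filter (fun i : Fin m => i.castSucc ∈ S), a i.castSucc) *
      (if Fin.last m ∈ S then a (Fin.last m) else 1) := by
  have h1 : ∏ i ∈ S, a i = ∏ i, if i ∈ S then a i else 1 := by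
    rw [Finset.prod_ite_mem, Finset.univ_inter]
  rw [h1, Fin.prod_univ_castSucc, Finset.prod_filter]

lemma eq_empty_of {m : ℕ} {S : Finset (Fin (m + 1))}
    (h : Finset.univ.filter (fun i : Fin m => i.castSucc ∈ S) = ∅) (hl : Fin.last m ∉ S) :
    S = ∅ := by
  rw [Finset.eq_empty_iff_forall_notMem]
  intro i hi
  induction i using Fin.lastCases with
  | last => exact hl hi
  | cast i =>
    have : i ∈ Finset.univ.filter (fun i : Fin m => i.castSucc ∈ S) :=
      Finset.mem_filter.2 ⟨Finset.mem_univ _, hi⟩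
    rw [h] at this
    exact absurd this (Finset.notMem_empty _)

/-- One more pair of numbers. -/
lemma indep_succ {m : ℕ} {a c : Fin (m + 1) → ℤ}
    (h : Indep (fun i : Fin m => a i.castSucc) (fun i : Fin m => c i.castSucc))
    {r : ℕ} (hr : r.Prime) (har : a (Fin.last m) = r)
    (h1 : 0 < c (Fin.last m)) (h2 : ¬ IsSquare (c (Fin.last m)))
    (h3 : IsCoprime (r : ℤ) (c (Fin.last m)))
    (h4 : IsCoprime (r : ℤ) ((∏ i : Fin m, a i.castSucc) * ∏ i : Fin m, c i.castSucc))
    (h5 : IsCoprime (c (Fin.last m))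
      ((∏ i : Fin m, a i.castSucc) * ∏ i : Fin m, c i.castSucc)) : Indep a c := by
  classical
  intro S T hST
  rw [prod_last S a, prod_last T c, har] at hST
  obtain ⟨S', hS'⟩ : ∃ S', S' = Finset.univ.filter (fun i : Fin m => i.castSucc ∈ S) := ⟨_, rfl⟩
  obtain ⟨T', hT'⟩ : ∃ T', T' = Finset.univ.filter (fun i : Fin m => i.castSucc ∈ T) := ⟨_, rfl⟩
  rw [← hS', ← hT'] at hST
  obtain ⟨P, hP⟩ : ∃ P, P = (∏ i ∈ S', a i.castSucc) * ∏ i ∈ T', c i.castSucc := ⟨_, rfl⟩
  have hdvd : P ∣ (∏ i : Fin m, a i.castSucc) * ∏ i : Fin m, c i.castSucc := by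
    rw [hP]
    exact mul_dvd_mul (Finset.prod_dvd_prod_of_subset _ _ _ (Finset.subset_univ _))
      (Finset.prod_dvd_prod_of_subset _ _ _ (Finset.subset_univ _))
  have h4' : IsCoprime (r : ℤ) P := h4.of_isCoprime_of_dvd_right hdvd
  have h5' : IsCoprime (c (Fin.last m)) P := h5.of_isCoprime_of_dvd_right hdvd
  by_cases hlS : Fin.last m ∈ S
  · exfalso
    rw [if_pos hlS] at hST
    obtain ⟨y, hy⟩ := hST
    have h6 : IsCoprime (r : ℤ) (P * (if Fin.last m ∈ T then c (Fin.last m) else 1)) := by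
      split_ifs with hlT
      · exact h4'.mul_right h3
      · rw [mul_one]; exact h4'
    have h7 : (r : ℤ) * (P * (if Fin.last m ∈ T then c (Fin.last m) else 1)) = y ^ 2 := by
      rw [sq, ← hy, hP]
      ring
    rw [Int.isCoprime_iff_gcd_eq_one] at h6
    obtain ⟨z, hz⟩ := Int.sq_of_gcd_eq_one h6 h7
    have h8 : (r : ℤ) = z ^ 2 := by
      rcases hz with hz | hz
      · exact hz
      · have : (0 : ℤ) < r := by exact_mod_cast hr.pos
        have := sq_nonneg z
        omega
    have h9 : r = z.natAbs ^ 2 := by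
      have : (r : ℤ) = ((z.natAbs ^ 2 : ℕ) : ℤ) := by
        rw [h8, Nat.cast_pow, Int.natCast_natAbs, sq_abs]
      exact_mod_cast this
    have h10 : ¬ (z.natAbs ^ 2).Prime := Nat.Prime.not_prime_pow le_rfl
    rw [← h9] at h10
    exact h10 hr
  · rw [if_neg hlS, mul_one] at hST
    by_cases hlT : Fin.last m ∈ T
    · exfalso
      rw [if_pos hlT] at hST
      obtain ⟨y, hy⟩ := hST
      have h7 : (c (Fin.last m)) * P = y ^ 2 := by
        rw [sq, ← hy, hP]
        ring
      rw [Int.isCoprime_iff_gcd_eq_one] at h5'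
      obtain ⟨z, hz⟩ := Int.sq_of_gcd_eq_one h5' h7
      rcases hz with hz | hz
      · exact h2 ⟨z, by rw [hz, sq]⟩
      · have := sq_nonneg z
        omega
    · rw [if_neg hlT, mul_one] at hST
      obtain ⟨hS0, hT0⟩ := h S' T' hST
      rw [hS'] at hS0
      rw [hT'] at hT0
      exact ⟨eq_empty_of hS0 hlS, eq_empty_of hT0 hlT⟩

/-- **Existence**, with positive numbers which are prime to a given number. -/
theorem exists_indep' (m : ℕ) (N : ℤ) (hN0 : N ≠ 0) : ∃ a u : Fin m → ℤ,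
    (∀ i, |N| < a i ∧ IsCoprime (a i) N) ∧
    (∀ i, 0 < u i ^ 2 - a i ∧ IsCoprime (u i ^ 2 - a i) N) ∧
    Indep a (fun i => u i ^ 2 - a i) := by
  classical
  induction m with
  | zero =>
    refine ⟨Fin.elim0, Fin.elim0, fun i => i.elim0, fun i => i.elim0, ?_⟩
    intro S T _
    exact ⟨Finset.eq_empty_of_isEmpty S, Finset.eq_empty_of_isEmpty T⟩
  | succ m ih =>
    obtain ⟨a, u, haN, hcN, hI⟩ := ih
    obtain ⟨D, hD⟩ : ∃ D, D = (∏ i : Fin m, a i) * ∏ i : Fin m, (u i ^ 2 - a i) := ⟨_, rfl⟩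
    obtain ⟨B, hB⟩ : ∃ B, B = N * D := ⟨_, rfl⟩
    have ha0 : ∀ i, a i ≠ 0 := fun i h0 => by
      have := (haN i).1
      rw [h0] at this
      exact absurd this (not_lt.2 (abs_nonneg N))
    have hc0 : ∀ i, u i ^ 2 - a i ≠ 0 := fun i => (hcN i).1.ne'
    have hD0 : D ≠ 0 := by
      rw [hD]
      exact mul_ne_zero (Finset.prod_ne_zero_iff.2 fun i _ => ha0 i)
        (Finset.prod_ne_zero_iff.2 fun i _ => hc0 i)
    have hB0 : B ≠ 0 := by rw [hB]; exact mul_ne_zero hN0 hD0
    have hDB : D ∣ B := by rw [hB]; exact dvd_mul_left _ _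
    have hNB : N ∣ B := by rw [hB]; exact dvd_mul_right _ _
    obtain ⟨r, hrlt, hr⟩ := Nat.exists_infinite_primes (B.natAbs + N.natAbs + 1)
    obtain ⟨w, hw⟩ : ∃ w : ℤ, w = (B.natAbs : ℤ) * (r + 1) := ⟨_, rfl⟩
    have hBpos : 0 < B.natAbs := Int.natAbs_pos.2 hB0
    have hrpos : (0 : ℤ) < r := by exact_mod_cast hr.pos
    have hrp : Prime (r : ℤ) := Nat.prime_iff_prime_int.1 hr
    have hwr : (r : ℤ) + 1 ≤ w := by
      rw [hw]
      have h1 : (1 : ℤ) ≤ (B.natAbs : ℤ) := by exact_mod_cast hBpos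
      nlinarith
    have hrB : ¬ (r : ℤ) ∣ (B.natAbs : ℤ) := by
      intro h
      have h1 : r ∣ B.natAbs := by exact_mod_cast h
      have := Nat.le_of_dvd hBpos h1
      omega
    have hrB' : ¬ (r : ℤ) ∣ B := by
      intro h
      exact hrB (by rw [Int.dvd_natCast]; rwa [Int.natAbs_dvd_natAbs] )
    have hrw : ¬ (r : ℤ) ∣ w := by
      rw [hw]
      intro h
      rcases hrp.dvd_or_dvd h with h | h
      · exact hrB h
      · have h1 : (r : ℤ) ∣ 1 := by
          have := dvd_sub h (dvd_refl (r : ℤ))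
          simpa using this
        exact hrp.not_isUnit (isUnit_of_dvd_one h1)
    have hBw : B ∣ w := by
      rw [hw]
      exact Dvd.dvd.mul_right (Int.dvd_natAbs_self) _
    obtain ⟨cn, hcn⟩ : ∃ cn : ℤ, cn = w ^ 2 - r := ⟨_, rfl⟩
    have hcpos : 0 < cn := by
      rw [hcn]
      nlinarith
    have hcs : ¬ IsSquare cn := by
      rintro ⟨z, hz⟩
      have h1 : z * z < w * w := by
        rw [← hz, hcn]
        nlinarith
      have h2 : (w - 1) * (w - 1) < z * z := by
        rw [← hz, hcn]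
        nlinarith
      have h3 : |z| < |w| := sq_lt_sq.1 (by rw [sq, sq]; exact h1)
      have h4 : |w - 1| < |z| := sq_lt_sq.1 (by rw [sq, sq]; exact h2)
      rw [abs_of_pos (by linarith : (0 : ℤ) < w)] at h3
      rw [abs_of_nonneg (by linarith : (0 : ℤ) ≤ w - 1)] at h4
      omega
    have hrB1 : IsCoprime (r : ℤ) B := (Prime.coprime_iff_not_dvd hrp).2 hrB'
    have hrw1 : IsCoprime (r : ℤ) w := (Prime.coprime_iff_not_dvd hrp).2 hrw
    have hrc : IsCoprime (r : ℤ) cn := by
      have h1 : IsCoprime (r : ℤ) (w ^ 2) := hrw1.pow_right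
      have h2 : cn = w ^ 2 + r * (-1) := by rw [hcn]; ring
      rw [h2]
      exact IsCoprime.add_mul_left_right h1 (-1)
    have hcB : IsCoprime cn B := by
      obtain ⟨w', hw'⟩ := hBw
      have h2 : cn = -r + B * (w' * w) := by rw [hcn, sq]; nth_rewrite 1 [hw']; ring
      rw [h2]
      exact (IsCoprime.add_mul_left_left (hrB1.neg_left) (w' * w))
    refine ⟨Fin.snoc (α := fun _ => ℤ) a (r : ℤ), Fin.snoc (α := fun _ => ℤ) u w, ?_, ?_, ?_⟩
    · intro i
      induction i using Fin.lastCases with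
      | last =>
        rw [Fin.snoc_last]
        refine ⟨?_, hrB1.of_isCoprime_of_dvd_right hNB⟩
        have h2 : ((B.natAbs + N.natAbs + 1 : ℕ) : ℤ) ≤ r := by exact_mod_cast hrlt
        push_cast at h2
        have h3 : (0 : ℤ) ≤ |B| := abs_nonneg B
        omega
      | cast i =>
        rw [Fin.snoc_castSucc]
        exact haN i
    · intro i
      induction i using Fin.lastCases with
      | last =>
        rw [Fin.snoc_last, Fin.snoc_last, ← hcn]
        exact ⟨hcpos, hcB.of_isCoprime_of_dvd_right hNB⟩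
      | cast i =>
        rw [Fin.snoc_castSucc, Fin.snoc_castSucc]
        exact hcN i
    · apply indep_succ (r := r) _ hr
      · rw [Fin.snoc_last]
      · rw [Fin.snoc_last, Fin.snoc_last, ← hcn]
        exact hcpos
      · rw [Fin.snoc_last, Fin.snoc_last, ← hcn]
        exact hcs
      · rw [Fin.snoc_last, Fin.snoc_last, ← hcn]
        exact hrc
      · simp only [Fin.snoc_castSucc]
        rw [← hD]
        exact hrB1.of_isCoprime_of_dvd_right hDB
      · simp only [Fin.snoc_castSucc, Fin.snoc_last]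
        rw [← hD, ← hcn]
        exact hcB.of_isCoprime_of_dvd_right hDB
      · simp only [Fin.snoc_castSucc]
        exact hI

/-- **Existence.** -/
theorem exists_indep (m : ℕ) (N : ℤ) : ∃ a u : Fin m → ℤ, (∀ i, N < a i) ∧
    Indep a (fun i => u i ^ 2 - a i) := by
  obtain ⟨a, u, h1, -, h3⟩ := exists_indep' m (|N| + 1) (by have := abs_nonneg N; omega)
  refine ⟨a, u, fun i => ?_, h3⟩
  have h4 := (h1 i).1
  have h5 := abs_nonneg N
  have h6 := le_abs_self N
  rw [abs_of_pos (by omega : (0 : ℤ) < |N| + 1)] at h4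
  omega

end Pool.Agent.Helper65.DIL
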