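import Pool.Agent.Helper25.FM.Defs

/-!
# The trace of Frobenius on the second cohomology group of a quadratic twist
-/

set_option autoImplicit false

namespace Pool.Agent.Helper65.DIL

open Finset Polynomial Pool.Agent.Helper25.FM

/-- If all power sums with positive exponent of nonzero numbers `z i` with coefficients `c i`
vanish, then so do the sums with coefficients `c i` of the values of every function. -/
lemma sum_eq_zero_of_power {ι : Type} [Fintype ι] (c z : ι → ℂ) (hz : ∀ i, z i ≠ 0)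
    (h : ∀ r : ℕ, 1 ≤ r → ∑ i, c i * z i ^ r = 0) (g : ℂ → ℂ) : ∑ i, c i * g (z i) = 0 := by
  classical
  obtain ⟨s, hs⟩ : ∃ s : Finset ℂ, s = insert 0 (Finset.univ.image z) := ⟨_, rfl⟩
  obtain ⟨P, hP⟩ : ∃ P : ℂ[X], P = Lagrange.interpolate s id (fun x => if x = 0 then 0 else g x) :=
    ⟨_, rfl⟩
  have hev : ∀ x ∈ s, P.eval x = if x = 0 then 0 else g x := by
    intro x hx
    have := Lagrange.eval_interpolate_at_node (s := s) (v := id)
      (fun x : ℂ => if x = 0 then 0 else g x) (Function.injective_id.injOn) hx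
    rw [hP]
    exact this
  have h0 : P.coeff 0 = 0 := by
    rw [Polynomial.coeff_zero_eq_eval_zero, hev 0 (by rw [hs]; exact Finset.mem_insert_self _ _),
      if_pos rfl]
  have h1 : ∀ i, g (z i) = ∑ r ∈ Finset.range (P.natDegree + 1), P.coeff r * z i ^ r := by
    intro i
    rw [← Polynomial.eval_eq_sum_range, hev (z i) (by
      rw [hs]
      exact Finset.mem_insert_of_mem (Finset.mem_image_of_mem _ (Finset.mem_univ i))),
      if_neg (hz i)]
  simp_rw [h1, Finset.mul_sum]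
  rw [Finset.sum_comm]
  apply Finset.sum_eq_zero
  intro r _
  rcases Nat.eq_zero_or_pos r with rfl | hr
  · apply Finset.sum_eq_zero
    intro i _
    rw [h0, zero_mul, mul_zero]
  · have h2 : ∀ i ∈ Finset.univ, c i * (P.coeff r * z i ^ r) = P.coeff r * (c i * z i ^ r) :=
      fun i _ => by ring
    rw [Finset.sum_congr rfl h2, ← Finset.mul_sum, h r hr, mul_zero]

lemma pow_eq_sq_iff {q : ℝ} (hq : 1 < q) (w : ℕ) : q ^ w = q ^ 2 ↔ w = 2 :=
  (pow_right_injective₀ (by linarith) (by linarith)).eq_iff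

/-- The part of absolute value `q`. -/
noncomputable def part (q : ℝ) (z : ℂ) : ℂ := if ‖z‖ ^ 2 = q ^ 2 then z else 0

lemma sum_part {q : ℝ} (hq : 1 < q) {m : ℕ} (α : Fin m → ℂ) (w : Fin m → ℕ)
    (hα : ∀ i, ‖α i‖ ^ 2 = q ^ w i) {e : ℂ} (he : e = 1 ∨ e = -1) :
    ∑ i, (-1) ^ w i * part q (e * α i) =
      e * ∑ i ∈ Finset.univ.filter (fun i => w i = 2), α i := by
  rw [Finset.mul_sum, Finset.sum_filter]
  refine Finset.sum_congr rfl fun i _ => ?_
  have hn : ‖e * α i‖ = ‖α i‖ := by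
    rcases he with rfl | rfl
    · rw [one_mul]
    · rw [neg_one_mul, norm_neg]
  unfold part
  rw [hn, hα i]
  by_cases h : w i = 2
  · rw [if_pos ((pow_eq_sq_iff hq _).2 h), if_pos h, h]
    ring
  · rw [if_neg (fun h' => h ((pow_eq_sq_iff hq _).1 h')), if_neg h, mul_zero]

lemma ne_zero_of {q : ℝ} (hq : 1 < q) {z : ℂ} {w : ℕ} (h : ‖z‖ ^ 2 = q ^ w) : z ≠ 0 := by
  rintro rfl
  rw [norm_zero] at h
  have : 0 < q ^ w := pow_pos (by linarith) w
  rw [← h] at this
  norm_num at this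

/-- **The trace of a twist.** -/
theorem trace_twist {q : ℝ} (hq : 1 < q) {NV NW ND : ℕ → ℝ} {M1 M2 M3 : ℕ} {bV bW bD : ℝ}
    (hV : TraceH2 q NV M1 bV) (hW : TraceH2 q NW M2 bW) (hD : TraceH2 q ND M3 bD) {e : ℝ}
    (he : e = 1 ∨ e = -1) (h : ∀ r : ℕ, 1 ≤ r → ND r - NW r = e ^ r * (NV r - NW r)) :
    bD - bW = e * (bV - bW) := by
  obtain ⟨mV, αV, wV, hV1, hV2, hV3, -⟩ := hV
  obtain ⟨mW, αW, wW, hW1, hW2, hW3, -⟩ := hW
  obtain ⟨mD, αD, wD, hD1, hD2, hD3, -⟩ := hD
  have hec : (e : ℂ) = 1 ∨ (e : ℂ) = -1 := by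
    rcases he with rfl | rfl
    · exact Or.inl (by norm_num)
    · exact Or.inr (by norm_num)
  have he0 : (e : ℂ) ≠ 0 := by
    rcases hec with h | h <;> rw [h] <;> norm_num
  have key := sum_eq_zero_of_power
    (Sum.elim (fun i => (-1 : ℂ) ^ wD i) (Sum.elim (fun i => -(-1 : ℂ) ^ wW i)
      (Sum.elim (fun i => -(-1 : ℂ) ^ wV i) (fun i => (-1 : ℂ) ^ wW i))))
    (Sum.elim (fun i => (1 : ℂ) * αD i) (Sum.elim (fun i => (1 : ℂ) * αW i)
      (Sum.elim (fun i => (e : ℂ) * αV i) (fun i => (e : ℂ) * αW i)))) ?_ ?_ (part q)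
  · simp only [Fintype.sum_sum_type, Sum.elim_inl, Sum.elim_inr] at key
    simp only [neg_mul, Finset.sum_neg_distrib] at key
    rw [sum_part hq αD wD hD1 (Or.inl rfl), sum_part hq αW wW hW1 (Or.inl rfl),
      sum_part hq αV wV hV1 hec, sum_part hq αW wW hW1 hec, ← hD3, ← hV3, ← hW3] at key
    have h1 : ((bD - bW - e * (bV - bW) : ℝ) : ℂ) = 0 := by
      push_cast
      linear_combination key
    have h2 : bD - bW - e * (bV - bW) = 0 := by exact_mod_cast h1
    linarith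
  · rintro (i | i | i | i)
    · simp only [Sum.elim_inl, one_mul]
      exact ne_zero_of hq (hD1 i)
    · simp only [Sum.elim_inl, Sum.elim_inr, one_mul]
      exact ne_zero_of hq (hW1 i)
    · simp only [Sum.elim_inl, Sum.elim_inr]
      exact mul_ne_zero he0 (ne_zero_of hq (hV1 i))
    · simp only [Sum.elim_inr]
      exact mul_ne_zero he0 (ne_zero_of hq (hW1 i))
  · intro r hr
    simp only [Fintype.sum_sum_type, Sum.elim_inl, Sum.elim_inr, one_mul, mul_pow]
    have e1 : ∑ i, -(-1 : ℂ) ^ wW i * αW i ^ r = -(NW r : ℂ) := by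
      rw [hW2 r hr, ← Finset.sum_neg_distrib]
      exact Finset.sum_congr rfl fun i _ => by ring
    have e2 : ∑ i, -(-1 : ℂ) ^ wV i * ((e : ℂ) ^ r * αV i ^ r) = -((e : ℂ) ^ r * (NV r : ℂ)) := by
      rw [hV2 r hr, Finset.mul_sum, ← Finset.sum_neg_distrib]
      exact Finset.sum_congr rfl fun i _ => by ring
    have e3 : ∑ i, (-1 : ℂ) ^ wW i * ((e : ℂ) ^ r * αW i ^ r) = (e : ℂ) ^ r * (NW r : ℂ) := by
      rw [hW2 r hr, Finset.mul_sum]
      exact Finset.sum_congr rfl fun i _ => by ring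
    rw [← hD2 r hr, e1, e2, e3]
    have h3 : ((ND r - NW r : ℝ) : ℂ) = ((e ^ r * (NV r - NW r) : ℝ) : ℂ) := by rw [h r hr]
    push_cast at h3
    linear_combination h3

end Pool.Agent.Helper65.DIL
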